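import Mathlib
import Pool.Agent.Lib.MP_bb0160_al.H54Own
import Pool.Agent.Lib.MP_bb0160_al.H54Ind

set_option autoImplicit false

namespace Pool.Agent.Results.MP_bb0160_al.LawImpliesConrad

universe u

/-- `lt` is a right order on the group `G`: a strict total order such that `f < g` implies
`f * h < g * h`. -/
structure IsRightOrder (G : Type u) [Group G] (lt : G → G → Prop) : Prop where
  irrefl : ∀ f, ¬ lt f f
  trans : ∀ f g h, lt f g → lt g h → lt f h
  total : ∀ f g, lt f g ∨ f = g ∨ lt g f
  mul_right : ∀ f g h, lt f g → lt (f * h) (g * h)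

/-- `G` admits a right order. -/
def RightOrderable (G : Type u) [Group G] : Prop :=
  ∃ lt : G → G → Prop, IsRightOrder G lt

/-- `G` satisfies a non-trivial group identity: there is a non-trivial element `w` of the free
group on `x_0, ..., x_(n-1)` with `w(g_0, ..., g_(n-1)) = 1` for all `g_i` in `G`
(`n ≥ 1` is automatic, as `w ≠ 1`). -/
def SatisfiesLaw (G : Type u) [Group G] : Prop :=
  ∃ (n : ℕ) (w : FreeGroup (Fin n)), w ≠ 1 ∧ ∀ g : Fin n → G, FreeGroup.lift g w = 1

/-- The right order `lt` is a Conrad right order: for all `1 < f < g` there is a positive integer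
`m` with `g < f * g ^ m * f⁻¹`. -/
def IsConrad (G : Type u) [Group G] (lt : G → G → Prop) : Prop :=
  ∀ f g : G, lt 1 f → lt f g → ∃ m : ℕ, 1 ≤ m ∧ lt g (f * g ^ m * f⁻¹)

/-- `G` admits a Conrad right order. -/
def ConradRightOrderable (G : Type u) [Group G] : Prop :=
  ∃ lt : G → G → Prop, IsRightOrder G lt ∧ IsConrad G lt

/-- `G` is locally indicable: every non-trivial finitely generated subgroup has a surjective
homomorphism onto the integers. -/
def LocallyIndicable (G : Type u) [Group G] : Prop :=
  ∀ K : Subgroup G, K.FG → K ≠ ⊥ → ∃ ψ : K →* Multiplicative ℤ, Function.Surjective ψ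

/-- Every right-orderable group that satisfies a non-trivial group identity is Conrad
right-orderable (the negated form of Q1). Moreover one right order satisfies the Conrad condition
with `m = 2` for all `f, g`, in the form of the problem and in the other usual form
`f < f ^ 2 * g` for all `f, g > 1`, and the group is locally indicable. -/
theorem result (G : Type u) [Group G] (hG : RightOrderable G) (hlaw : SatisfiesLaw G) :
    ConradRightOrderable G ∧
      (∃ lt : G → G → Prop, IsRightOrder G lt ∧
        (∀ f g, lt 1 f → lt f g → lt g (f * g ^ 2 * f⁻¹)) ∧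
        (∀ f g, lt 1 f → lt 1 g → lt f (f ^ 2 * g))) ∧
      LocallyIndicable G := by
  obtain ⟨lt, hlt⟩ := hG
  obtain ⟨n, w, hw, hl⟩ := hlaw
  obtain ⟨v, hv, hv'⟩ := Pool.Agent.Lib.MP_bb0160_al.law_two w hw hl
  obtain ⟨lt', h1, h2, h3, h4, h5, h6⟩ := Pool.Agent.Lib.MP_bb0160_al.conrad_of_law2 lt
    hlt.irrefl hlt.trans hlt.total hlt.mul_right v hv hv'
  exact ⟨⟨lt', ⟨h1, h2, h3, h4⟩, fun f g hf hfg => ⟨2, by norm_num, h5 f g hf hfg⟩⟩,
    ⟨lt', ⟨h1, h2, h3, h4⟩, h5, h6⟩,
    fun K hK hne => Pool.Agent.Lib.MP_bb0160_al.loc_ind lt hlt.irrefl hlt.trans hlt.total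
      hlt.mul_right v hv hv' K hK hne⟩

end Pool.Agent.Results.MP_bb0160_al.LawImpliesConrad
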